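import Pool.Agent.H.MP_e6e34a_mp.E

set_option autoImplicit false

namespace Pool.Agent.Results.MP_e6e34a_mp.NotOptimal

open Pool.Agent.H.MP_e6e34a_mp

theorem result : ∃ N : ℕ, ∀ n : ℕ, N ≤ n → 4 ≤ 2 ^ n ∧
    (∀ x, IsONB (dkzA (2 ^ n) x) ∧ IsONB (dkzB (2 ^ n) x)) ∧
    ∃ u w : Fin 2 → Fin (2 ^ n) → Fin (2 ^ n) → ℂ, (∀ x, IsONB (u x) ∧ IsONB (w x)) ∧
      IsLocal (beh u w 0) ∧ (∀ v : ℝ, 3 / 5 ≤ v → v ≤ 1 → ¬ IsLocal (beh u w v)) ∧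
      (∀ v : ℝ, 0 ≤ v → v ≤ 121 / 200 → IsLocal (beh (dkzA (2 ^ n)) (dkzB (2 ^ n)) v)) ∧
      vstar u w < vstar (dkzA (2 ^ n)) (dkzB (2 ^ n)) :=
  main

end Pool.Agent.Results.MP_e6e34a_mp.NotOptimal
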